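import Pool.Agent.Helper52.C2.Goals

/-!
PROJECT C2, packet RING: the trivial kernels.
-/

set_option autoImplicit false

namespace Pool.Agent.Helper95.C2

open LaurentPolynomial Pool.Agent.Helper52.C2

/-! ### Shapes of windows -/

/-- all entries without the direction `d` vanish -/
theorem onePos_coord {ι : Type} [Fintype ι] (ok : ι → Prop) (M : ι → ι → ℝ)
    (d : ι) (h : ∀ a b, ok a → ok b → a ≠ d → b ≠ d → M a b = 0) : OnePos ok M := by
  classical
  refine ⟨fun a => if a = d then 1 else 0, fun v hv hl => ?_⟩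
  have hd : v d = 0 := by simpa using hl
  unfold quad
  apply le_of_eq
  apply Finset.sum_eq_zero
  intro a _
  apply Finset.sum_eq_zero
  intro b _
  by_cases ha : ok a
  · by_cases hb : ok b
    · by_cases h1 : a = d
      · rw [h1, hd]; ring
      · by_cases h2 : b = d
        · rw [h2, hd]; ring
        · rw [h a b ha hb h1 h2]; ring
    · rw [hv b hb]; ring
  · rw [hv a ha]; ring

/-- all entries are one -/
theorem onePos_ones {ι : Type} [Fintype ι] (ok : ι → Prop) (M : ι → ι → ℝ)
    (h : ∀ a b, ok a → ok b → M a b = 1) : OnePos ok M := by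
  refine ⟨fun _ => 1, fun v hv hl => ?_⟩
  have hl' : ∑ a, v a = 0 := by simpa using hl
  have h1 : ∀ a b, v a * M a b * v b = v a * v b := by
    intro a b
    by_cases ha : ok a
    · by_cases hb : ok b
      · rw [h a b ha hb]; ring
      · rw [hv b hb]; ring
    · rw [hv a ha]; ring
  unfold quad
  simp only [h1]
  rw [← Finset.sum_mul_sum, hl']
  simp

/-! ### Prefix sums -/

theorem pre_T (k i : ℤ) : pre (T k : ℝ[T;T⁻¹]) i = if k ≤ i then 1 else 0 := by
  unfold pre
  have h : (T k : ℝ[T;T⁻¹]).coeff.support = {k} := by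
    ext j
    simp [Finsupp.mem_support_iff, eq_comm]
  rw [h]
  simp

theorem coeff_T_mul (f : ℝ[T;T⁻¹]) (k i : ℤ) : (T k * f).coeff i = f.coeff (i - k) := by
  have h := AddMonoidAlgebra.coeff_single_mul_apply f (1 : ℝ) k i
  rw [one_mul, neg_add_eq_sub] at h
  exact h

theorem pre_T_mul (f : ℝ[T;T⁻¹]) (k i : ℤ) : pre (T k * f) i = pre f (i - k) := by
  unfold pre
  refine Finset.sum_bij (fun j _ => j - k) ?_ ?_ ?_ ?_
  · intro j hj
    rw [Finsupp.mem_support_iff, coeff_T_mul] at hj
    rwa [Finsupp.mem_support_iff]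
  · intro a _ b _ hab
    linarith
  · intro j hj
    refine ⟨j + k, ?_, by ring⟩
    rw [Finsupp.mem_support_iff] at hj ⊢
    rwa [coeff_T_mul, add_sub_cancel_right]
  · intro j _
    rw [coeff_T_mul]
    by_cases h : j ≤ i
    · rw [if_pos h, if_pos (by omega)]
    · rw [if_neg h, if_neg (by omega)]

/-! ### SHIFT -/

theorem shift : GoalShift := by
  intro S k hS
  have hh : ∀ n i : ℤ, (⟨T k * S.L, T k * S.R, T k * S.F, by
      rw [mul_assoc, S.rel, mul_sub]⟩ : Tg).h n i = S.h n (i - k) := by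
    intro n i
    unfold Tg.h
    simp only [pre_T_mul]
    rw [show i - n - k = i - k - n by ring]
  refine ⟨⟨fun i => ?_, fun i => ?_, fun i => ?_⟩, fun n i => ?_⟩
  · simp only [coeff_T_mul]; exact hS.nonneg.L _
  · simp only [coeff_T_mul]; exact hS.nonneg.R _
  · simp only [coeff_T_mul]; exact hS.nonneg.F _
  · have h1 := hS.win n (i - k)
    have e : (⟨T k * S.L, T k * S.R, T k * S.F, by
        rw [mul_assoc, S.rel, mul_sub]⟩ : Tg).win n i = S.win n (i - k) := by
      funext a b
      have e1 : i + 1 - k = i - k + 1 := by ring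
      have e2 : i + 2 - k = i - k + 2 := by ring
      rcases a with _ | _ | _ <;> rcases b with _ | _ | _ <;>
        simp only [Tg.win, hh, e1, e2]
    rw [e]
    exact h1

/-! ### CROSS -/

theorem h_one (n i : ℤ) (hn : -1 ≤ n) :
    (U 1).h n i = if 0 ≤ i ∧ i ≤ n then 1 else 0 := by
  have e : (U 1).h n i = (if 0 ≤ i then (1 : ℝ) else 0) - (if 1 ≤ i - n then 1 else 0) := by
    unfold Tg.h U
    simp only [pre_T]
    rw [← T_zero, pre_T]
  rw [e]
  by_cases h1 : 0 ≤ i
  · by_cases h2 : i ≤ n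
    · rw [if_pos h1, if_neg (by omega), if_pos ⟨h1, h2⟩]; ring
    · rw [if_pos h1, if_pos (by omega), if_neg (by omega)]; ring
  · rw [if_neg h1, if_neg (by omega), if_neg (by omega)]; ring

theorem cross : GoalCross := by
  refine ⟨⟨fun i => ?_, fun i => ?_, fun i => ?_⟩, fun n i => ?_⟩
  · unfold U
    simp only
    rw [← T_zero, T_apply]
    split_ifs <;> norm_num
  · unfold U
    simp only
    rw [T_apply]
    split_ifs <;> norm_num
  · unfold U geo
    simp only [zero_le_one, if_true, Int.toNat_one, Finset.sum_range_one, Nat.cast_zero]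
    rw [T_apply]
    split_ifs <;> norm_num
  · have g0 : ∀ j, (U 1).h n j = if 0 ≤ j ∧ j ≤ n then 1 else 0 := fun j => h_one n j (by omega)
    have g1 : ∀ j, (U 1).h (n - 1) j = if 0 ≤ j ∧ j ≤ (n : ℤ) - 1 then 1 else 0 := fun j =>
      h_one _ j (by omega)
    have g2 : ∀ j, 1 ≤ n → (if n = 1 then max ((U 1).h (-1) j) 0 else (U 1).h (n - 2) j)
        = if 0 ≤ j ∧ j ≤ (n : ℤ) - 2 then 1 else 0 := by
      intro j hn
      by_cases h : n = 1
      · subst h
        rw [if_pos rfl, h_one _ _ (by omega), if_neg (by omega), if_neg (by omega)]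
        simp
      · rw [if_neg h, h_one _ _ (by omega)]
    rcases lt_or_ge i 0 with hi | hi
    · apply onePos_coord _ _ Dir.X
      rintro (_ | _ | _) (_ | _ | _) ha hb h1 h2
      all_goals first | exact absurd rfl h1 | exact absurd rfl h2 | skip
      all_goals simp only [Tg.win, g0, g1]
      all_goals first | rw [if_neg (by omega)] | (rw [g2 _ ha, if_neg (by omega)])
    · rcases le_or_gt i ((n : ℤ) - 2) with hi2 | hi2
      · apply onePos_ones
        rintro (_ | _ | _) (_ | _ | _) ha hb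
        all_goals simp only [Tg.win, g0, g1]
        all_goals first | rw [if_pos (by omega)] | (rw [g2 _ ha, if_pos (by omega)])
      · apply onePos_coord _ _ Dir.Y
        rintro (_ | _ | _) (_ | _ | _) ha hb h1 h2
        all_goals first | exact absurd rfl h1 | exact absurd rfl h2 | skip
        all_goals simp only [Tg.win, g0, g1]
        all_goals first | rw [if_neg (by omega)] | (rw [g2 _ ha, if_neg (by omega)])

/-! ### K1 -/

theorem geo_coeff (M j : ℤ) (hM : 0 ≤ M) :
    (geo M).coeff j = if 0 ≤ j ∧ j < M then 1 else 0 := by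
  obtain ⟨m, rfl⟩ := Int.eq_ofNat_of_zero_le hM
  unfold geo
  rw [if_pos hM]
  simp only [Int.toNat_natCast]
  induction m with
  | zero => 
    rw [if_neg (by omega)]
    simp
  | succ k ih =>
    rw [Finset.sum_range_succ, AddMonoidAlgebra.coeff_add, Finsupp.add_apply, ih (by omega),
      T_apply]
    by_cases h : (k : ℤ) = j
    · rw [if_pos h, if_neg (by omega), if_pos (by push_cast; omega)]; ring
    · rw [if_neg h, add_zero]
      by_cases h2 : 0 ≤ j ∧ j < (k : ℤ)
      · rw [if_pos h2, if_pos (by push_cast; omega)]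
      · rw [if_neg h2, if_neg (by push_cast; omega)]

theorem geo_max (M j : ℤ) (hM : -1 ≤ M) :
    max ((geo M).coeff j) 0 = if 0 ≤ j ∧ j < M then 1 else 0 := by
  rcases lt_or_ge M 0 with h | h
  · obtain rfl : M = -1 := by omega
    rw [if_neg (by omega)]
    have e : geo (-1) = - T (-1) := by
      unfold geo
      rw [if_neg (by norm_num)]
      simp
    rw [e, AddMonoidAlgebra.coeff_neg, Finsupp.neg_apply, T_apply]
    split_ifs <;> norm_num
  · rw [geo_coeff M j h]
    split_ifs <;> norm_num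

theorem one_sub_T_ne : (1 - T 1 : ℝ[T;T⁻¹]) ≠ 0 := by
  intro h
  have h1 : (1 - T 1 : ℝ[T;T⁻¹]).coeff 0 = 0 := by rw [h]; simp
  rw [← T_zero, AddMonoidAlgebra.coeff_sub, Finsupp.sub_apply, T_apply, T_apply] at h1
  norm_num at h1

theorem geo_add (a b : ℤ) : T a * geo b + geo a = geo (a + b) := by
  apply mul_right_cancel₀ one_sub_T_ne
  rw [add_mul, mul_assoc, geo_mul, geo_mul, geo_mul, mul_sub, mul_one, ← T_add]
  ring

/-- the total size -/
def sg (m : Fin 3 → ℤ) : ℤ := m 0 + (m 1 + m 2)

theorem K1_asg (a : Fin 3 → Tg) (m : Fin 3 → ℤ) :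
    K1 (asg (fun _ => True) a m) = geo (sg m) := by
  unfold K1 asg Tg.mul U sg
  simp only [if_true, mul_one]
  rw [geo_add, geo_add]

theorem k1 : GoalK1 := by
  intro n i hn
  set N : ℤ := n 0 + (n 1 + n 2) with hN
  have hn0 := hn 0
  have hn1 := hn 1
  have hn2 := hn 2
  have hN0 : 0 ≤ N := by omega
  have s0 : sg n = N := rfl
  have s1 : ∀ k : Fin 3, sg (n - Pi.single k 1) = N - 1 := by
    intro k
    unfold sg
    fin_cases k <;> simp [hN] <;> ring
  have s2 : ∀ k : Fin 3, sg (n - Pi.single k 2) = N - 2 := by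
    intro k
    unfold sg
    fin_cases k <;> simp [hN] <;> ring
  have s3 : ∀ k l : Fin 3, sg (n - Pi.single k 1 - Pi.single l 1) = N - 2 := by
    intro k l
    unfold sg
    fin_cases k <;> fin_cases l <;> simp [hN] <;> ring
  have hpos : ∀ k : Fin 3, 1 ≤ n k → 1 ≤ N := by
    intro k hk
    fin_cases k <;> simp at hk <;> omega
  have hpos2 : ∀ k l : Fin 3, 1 ≤ n k → 1 ≤ n l → ¬ (k = l ∧ n k = 1) → 2 ≤ N := by
    intro k l hk hl hkl
    fin_cases k <;> fin_cases l <;> simp at hk hl hkl <;> omega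
  have g0 : ∀ j, (geo N).coeff j = if 0 ≤ j ∧ j < N then 1 else 0 := fun j => geo_coeff N j hN0
  have g1 : ∀ (k : Fin 3) j, 1 ≤ n k → (geo (N - 1)).coeff j
      = if 0 ≤ j ∧ j < N - 1 then 1 else 0 := fun k j hk =>
    geo_coeff _ j (by have := hpos k hk; omega)
  have g2 : ∀ (k l : Fin 3) j, 1 ≤ n k → 1 ≤ n l →
      (if k = l ∧ n k = 1 then max ((geo (N - 2)).coeff j) 0 else (geo (N - 2)).coeff j)
      = if 0 ≤ j ∧ j < N - 2 then 1 else 0 := by
    intro k l j hk hl
    by_cases h : k = l ∧ n k = 1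
    · rw [if_pos h, geo_max _ _ (by have := hpos k hk; omega)]
    · rw [if_neg h, geo_coeff _ _ (by have := hpos2 k l hk hl h; omega)]
  rcases lt_or_ge i 0 with hi | hi
  · apply onePos_coord _ _ Dir.X
    rintro (_ | _ | k) (_ | _ | l) ha hb h1 h2
    all_goals first | exact absurd rfl h1 | exact absurd rfl h2 | skip
    all_goals simp only [kwin, K1_asg, s0, s1, s2, s3]
    · rw [g0, if_neg (by omega)]
    · rw [g1 l _ hb.2, if_neg (by omega)]
    · rw [g1 k _ ha.2, if_neg (by omega)]
    · rw [g2 k l _ ha.2 hb.2, if_neg (by omega)]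
  · rcases lt_or_ge i (N - 2) with hi2 | hi2
    · apply onePos_ones
      rintro (_ | _ | k) (_ | _ | l) ha hb
      all_goals simp only [kwin, K1_asg, s0, s1, s2, s3]
      · rw [g0, if_pos (by omega)]
      · rw [g0, if_pos (by omega)]
      · rw [g1 l _ hb.2, if_pos (by omega)]
      · rw [g0, if_pos (by omega)]
      · rw [g0, if_pos (by omega)]
      · rw [g1 l _ hb.2, if_pos (by omega)]
      · rw [g1 k _ ha.2, if_pos (by omega)]
      · rw [g1 k _ ha.2, if_pos (by omega)]
      · rw [g2 k l _ ha.2 hb.2, if_pos (by omega)]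
    · apply onePos_coord _ _ Dir.Y
      rintro (_ | _ | k) (_ | _ | l) ha hb h1 h2
      all_goals first | exact absurd rfl h1 | exact absurd rfl h2 | skip
      all_goals simp only [kwin, K1_asg, s0, s1, s2, s3]
      · rw [g0, if_neg (by omega)]
      · rw [g1 l _ hb.2, if_neg (by omega)]
      · rw [g1 k _ ha.2, if_neg (by omega)]
      · rw [g2 k l _ ha.2 hb.2, if_neg (by omega)]

end Pool.Agent.Helper95.C2
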